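import Pool.Agent.W712.WR.Stm

/-!
# WR-NOEXITAC
-/

set_option autoImplicit false

namespace Pool.Agent.W363.WR

open Set Filter MeasureTheory

open scoped Topology

/-- a function controlled by finitely many absolutely continuous functions is absolutely
continuous -/
theorem ac_of_le {ι : Type} [Fintype ι] (f : ι → ℝ → ℝ) (G : ℝ → ℝ) (a b : ℝ)
    (hf : ∀ i, AbsolutelyContinuousOnInterval (f i) a b)
    (h : ∀ s t, |G s - G t| ≤ ∑ i, |f i s - f i t|) : AbsolutelyContinuousOnInterval G a b := by
  unfold AbsolutelyContinuousOnInterval at hf ⊢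
  have h1 := tendsto_finsetSum (Finset.univ : Finset ι) (fun i _ => hf i)
  rw [Finset.sum_const_zero] at h1
  refine squeeze_zero (fun E => Finset.sum_nonneg fun _ _ => dist_nonneg) (fun E => ?_) h1
  rw [Finset.sum_comm]
  refine Finset.sum_le_sum fun k _ => ?_
  have := h (E.2 k).1 (E.2 k).2
  simpa only [Real.dist_eq] using this

variable {ι : Type} [Fintype ι]

/-- the maximum of `0` and the `f i` -/
noncomputable def mx (f : ι → ℝ → ℝ) (t : ℝ) : ℝ :=
  (Finset.univ : Finset (Option ι)).sup' ⟨none, Finset.mem_univ _⟩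
    (fun o => o.elim 0 (fun j => f j t))

theorem mx_nonneg (f : ι → ℝ → ℝ) (t : ℝ) : 0 ≤ mx f t :=
  Finset.le_sup' (fun o : Option ι => o.elim 0 (fun j => f j t)) (Finset.mem_univ none)

theorem le_mx (f : ι → ℝ → ℝ) (t : ℝ) (j : ι) : f j t ≤ mx f t :=
  Finset.le_sup' (fun o : Option ι => o.elim 0 (fun j => f j t)) (Finset.mem_univ (some j))

theorem mx_le (f : ι → ℝ → ℝ) (t x : ℝ) (h0 : 0 ≤ x) (h : ∀ j, f j t ≤ x) : mx f t ≤ x := by
  refine Finset.sup'_le _ _ fun o _ => ?_
  cases o with
  | none => exact h0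
  | some j => exact h j

theorem mx_eq (f : ι → ℝ → ℝ) (t : ℝ) : mx f t = 0 ∨ ∃ i, mx f t = f i t := by
  obtain ⟨o, -, ho⟩ := Finset.exists_mem_eq_sup' (⟨none, Finset.mem_univ _⟩ :
    (Finset.univ : Finset (Option ι)).Nonempty) (fun o : Option ι => o.elim 0 (fun j => f j t))
  cases o with
  | none => exact Or.inl ho
  | some j => exact Or.inr ⟨j, ho⟩

theorem mx_sub (f : ι → ℝ → ℝ) (s t : ℝ) : |mx f s - mx f t| ≤ ∑ i, |f i s - f i t| := by
  have key : ∀ s t : ℝ, mx f s ≤ mx f t + ∑ i, |f i s - f i t| := by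
    intro s t
    refine mx_le _ _ _ ?_ fun j => ?_
    · exact add_nonneg (mx_nonneg _ _) (Finset.sum_nonneg fun _ _ => abs_nonneg _)
    · have h1 := Finset.single_le_sum (f := fun i => |f i s - f i t|)
        (fun _ _ => abs_nonneg _) (Finset.mem_univ j)
      have h2 := le_mx f t j
      have h3 := le_abs_self (f j s - f j t)
      linarith
  rw [abs_sub_le_iff]
  constructor
  · linarith [key s t]
  · have h1 := key t s
    have h2 : ∑ i, |f i t - f i s| = ∑ i, |f i s - f i t| :=
      Finset.sum_congr rfl fun i _ => abs_sub_comm _ _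
    linarith

theorem mx_cont (f : ι → ℝ → ℝ) (t : ℝ) (h : ∀ i, ContinuousAt (f i) t) :
    ContinuousAt (mx f) t := by
  have h1 : Tendsto (fun s => ∑ i, |f i s - f i t|) (𝓝 t) (𝓝 0) := by
    have h2 := tendsto_finsetSum (Finset.univ : Finset ι)
      (fun i _ => (((h i).tendsto.sub_const (f i t)).abs))
    simpa using h2
  have h3 : Tendsto (fun s => mx f s - mx f t) (𝓝 t) (𝓝 0) := by
    rw [tendsto_zero_iff_abs_tendsto_zero]
    exact squeeze_zero (fun _ => abs_nonneg _) (fun s => mx_sub f s t) h1
  have h4 := h3.add_const (mx f t)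
  simpa [ContinuousAt] using h4

theorem noExitAC : W712.WR.NoExitACStm := by
  intro ι _ f g a b c hab hc hac hder h0 hsg t ht i
  set G : ℝ → ℝ := fun s => min (mx f s) c with hG
  have hGac : AbsolutelyContinuousOnInterval G a b := by
    refine ac_of_le f G a b hac fun s t => ?_
    have h1 := abs_min_sub_min_le_max (mx f s) c (mx f t) c
    rw [sub_self, abs_zero, max_eq_left (abs_nonneg _)] at h1
    exact h1.trans (mx_sub f s t)
  have hder' : ∀ᵐ t, t ∈ Icc a b → ∀ i, HasDerivAt (f i) (g i t) t := by
    have h1 := ae_all_iff.2 hder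
    filter_upwards [h1] with t h2 h3 i using h2 i h3
  have hneg : ∀ᵐ t, t ∈ Icc a b → deriv G t ≤ 0 := by
    filter_upwards [hder', hsg, hGac.ae_differentiableAt] with s h1 h2 h3 hs
    have h1 := h1 hs
    have h2 := h2 hs
    have h3 := h3 (by rwa [uIcc_of_le hab])
    have hcont := mx_cont f s fun i => (h1 i).continuousAt
    rcases lt_trichotomy c (mx f s) with h4 | h4 | h4
    · have h5 : ∀ᶠ u in 𝓝 s, c < mx f u := hcont.eventually (lt_mem_nhds h4)
      have h6 : G =ᶠ[𝓝 s] fun _ => c := by
        filter_upwards [h5] with u hu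
        exact min_eq_right hu.le
      rw [h6.deriv_eq, deriv_const]
    · have h5 : IsLocalMax G s := by
        refine Filter.Eventually.of_forall fun u => ?_
        change min (mx f u) c ≤ min (mx f s) c
        rw [← h4, min_self]
        exact min_le_right _ _
      rw [h5.deriv_eq_zero]
    · have h5 : ∀ᶠ u in 𝓝 s, mx f u < c := hcont.eventually (gt_mem_nhds h4)
      have hGs : G s = mx f s := min_eq_left h4.le
      rcases mx_eq f s with h6 | ⟨i, h6⟩
      · have h7 : IsLocalMin G s := by
          refine Filter.Eventually.of_forall fun u => ?_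
          change min (mx f s) c ≤ min (mx f u) c
          rw [h6]
          exact le_min ((min_le_left _ _).trans (mx_nonneg f u)) (min_le_right _ _)
        rw [h7.deriv_eq_zero]
      · have h7 : g i s ≤ 0 := by
          refine h2 i (fun j => ?_) ?_ ?_
          · rw [← h6]; exact le_mx f s j
          · rw [← h6]; exact mx_nonneg f s
          · rw [← h6]; exact h4.le
        have h8 : IsLocalMin (fun u => G u - f i u) s := by
          filter_upwards [h5] with u hu
          have h9 : G u = mx f u := min_eq_left hu.le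
          rw [hGs, h9, h6, sub_self]
          have := le_mx f u i
          linarith
        have h9 := h8.hasDerivAt_eq_zero (h3.hasDerivAt.sub (h1 i))
        linarith
  have ht' := ht
  obtain ⟨hta, htb⟩ := ht'
  have hGt : AbsolutelyContinuousOnInterval G a t := by
    refine hGac.mono ?_
    rw [uIcc_of_le hta, uIcc_of_le hab]
    exact Icc_subset_Icc_right htb
  have hI := hGt.integral_deriv_eq_sub
  have hI2 : ∫ x in a..t, deriv G x ≤ 0 := by
    rw [intervalIntegral.integral_of_le hta]
    refine integral_nonpos_of_ae ?_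
    rw [EventuallyLE, ae_restrict_iff' measurableSet_Ioc]
    filter_upwards [hneg] with x hx hx2
    exact hx ⟨hx2.1.le, hx2.2.trans htb⟩
  have hGa : G a = 0 := by
    have h1 : mx f a = 0 := le_antisymm (mx_le f a 0 le_rfl h0) (mx_nonneg f a)
    change min (mx f a) c = 0
    rw [h1, min_eq_left hc.le]
  have hGt0 : G t ≤ 0 := by linarith
  have h1 : mx f t ≤ 0 := by
    rcases min_le_iff.1 hGt0 with h | h
    · exact h
    · linarith
  exact (le_mx f t i).trans h1

end Pool.Agent.W363.WR
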